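import Pool.Agent.helper5.EY.Fin5

set_option autoImplicit false

/-!
# The degrees of the irreducible components of non-reduced finite eigenschemes

For all `n ≥ 1` and `d ≥ 2` the set of the degrees `m` of irreducible components of finite non-reduced eigenschemes of
forms of degree `d` in `n + 1` variables is `{1, ..., D_{n,d}}`, except that `m = 1` does not occur for `n = 1`, `d = 2`.

The eigenscheme `X_f` in projective space is described by its closed points (`eigenpoints f`) and by its local rings:
`lP P` is a linear form `l` with value `1` at the representative `v` of the point `P`, `chartIdeal f l` is the ideal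
generated by the `2 × 2` minors of the matrix with rows `x`, `∇f` and by `l - 1`, i.e. the ideal of the affine chart
`l ≠ 0` of `X_f` (embedded in affine space as `l = 1`), and the local ring of `X_f` at `P` is the localization at the
point `v` of the quotient of the polynomial ring by this ideal.
-/

namespace Pool.Agent.Results.MP_3fe32a_ag.ComponentDegrees

open MvPolynomial LinearAlgebra.Projectivization EY

/-- the ideal of the eigenscheme of `f` in the local ring of affine space at the representative of the point `P` -/
noncomputable def localIdeal {N : ℕ} (f : MvPolynomial (Fin N) ℂ) (P : ℙ ℂ (Fin N → ℂ)) :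
    Ideal (Localization.AtPrime (pt P.rep)) :=
  (chartIdeal f (lP P)).map (algebraMap (MvPolynomial (Fin N) ℂ) (Localization.AtPrime (pt P.rep)))

/-- the local ring of the eigenscheme of `f` at the point `P` -/
abbrev LocalRing {N : ℕ} (f : MvPolynomial (Fin N) ℂ) (P : ℙ ℂ (Fin N → ℂ)) : Type :=
  Localization.AtPrime (pt P.rep) ⧸ localIdeal f P

/-- the degree of the irreducible component of the eigenscheme of `f` supported at the point `P` -/
noncomputable def componentDegree {N : ℕ} (f : MvPolynomial (Fin N) ℂ) (P : ℙ ℂ (Fin N → ℂ)) : ℕ :=
  Module.finrank ℂ (LocalRing f P)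

/-- **The answer to Q1.** There is a form `f` of degree `d` in `n + 1` variables whose eigenscheme is finite and
non-reduced and has an irreducible component of degree `m` if and only if `1 ≤ m ≤ D_{n,d}` and
`(n, d, m) ≠ (1, 2, 1)`. -/
theorem result {n d : ℕ} (hn : 1 ≤ n) (hd : 2 ≤ d) (m : ℕ) :
    (∃ f : MvPolynomial (Fin (n + 1)) ℂ, f.IsHomogeneous d ∧ (eigenpoints f).Finite ∧
      (∃ P ∈ eigenpoints f, ¬ IsReduced (LocalRing f P)) ∧ ∃ P ∈ eigenpoints f, componentDegree f P = m) ↔
      1 ≤ m ∧ m ≤ Dnd n d ∧ ¬ (n = 1 ∧ d = 2 ∧ m = 1) :=
  final_all (fun _ N m hq h1 h2 h3 => rz_ge_three hq N m h1 h2 h3) hn hd m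

end Pool.Agent.Results.MP_3fe32a_ag.ComponentDegrees
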